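import Mathlib

set_option autoImplicit false

namespace Pool.Agent.Results.MP_c1e3ac_co.DepthNotReduced

section Defs
variable {B W : Type} [Group W] {M : CoxeterMatrix B}

/-- `l = [t₁, …, t_r]` is a factorization of `w` into reflections. -/
def IsFact (cs : CoxeterSystem M W) (w : W) (l : List W) : Prop :=
  (∀ t ∈ l, cs.IsReflection t) ∧ l.prod = w

/-- the cost `∑ (1 + ℓ(tᵢ)) / 2` of a list of reflections (each length is odd, so the
division is exact). -/
noncomputable def cost (cs : CoxeterSystem M W) (l : List W) : ℕ :=
  (l.map fun t => (1 + cs.length t) / 2).sum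

/-- the depth of `w`: the least cost of a factorization of `w` into reflections. -/
noncomputable def depth (cs : CoxeterSystem M W) (w : W) : ℕ :=
  sInf {c | ∃ l, IsFact cs w l ∧ cost cs l = c}

end Defs

/-- affine `A₂`. -/
def MA : CoxeterMatrix (Fin 3) where
  M := Matrix.of fun i j => if i = j then 1 else 3
  isSymm := by ext i j; fin_cases i <;> fin_cases j <;> rfl
  diagonal := by intro i; simp
  off_diagonal := by intro i j h; simp [h]

abbrev P := ℤ × ℤ × ℤ

def rf (i : Fin 3) (x : P) : P :=
  if i = 0 then (-x.1, x.2.1 + x.1, x.2.2 + x.1)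
  else if i = 1 then (x.1 + x.2.1, -x.2.1, x.2.2 + x.2.1)
  else (x.1 + x.2.2, x.2.1 + x.2.2, -x.2.2)

def rfE (i : Fin 3) : Function.End P := rf i

theorem liftable : MA.IsLiftable rfE := by
  intro i j
  funext x
  obtain ⟨a, b, c⟩ := x
  fin_cases i <;> fin_cases j <;>
    simp [MA, rfE, rf, pow_succ, Function.End.mul_def, Function.End.one_def] <;> ring

def act (u : List (Fin 3)) : P := u.foldr rf (1, 1, 1)

def words : ℕ → List (List (Fin 3))
  | 0 => [[]]
  | n + 1 => (words n).flatMap fun u => [0 :: u, 1 :: u, 2 :: u]

theorem mem_words (u : List (Fin 3)) : u ∈ words u.length := by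
  induction u with
  | nil => simp [words]
  | cons i u ih =>
    simp only [List.length_cons, words, List.mem_flatMap]
    refine ⟨u, ih, ?_⟩
    fin_cases i <;> simp

def w0 : List (Fin 3) := [0, 1, 2, 0, 1, 2, 0]

theorem chk1 : ∀ n ∈ List.range 8, ∀ u ∈ words n, act u = act w0 → u = w0 := by
  decide +kernel

theorem chk2 : ∀ n ∈ List.range 8, ∀ u ∈ words n, u <:+: w0 → act (u ++ u) = (1, 1, 1) →
    u.length ≤ 1 := by
  decide +kernel

noncomputable abbrev cs := MA.toCoxeterSystem

noncomputable def phi : MA.Group →* Function.End P := cs.lift ⟨rfE, liftable⟩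

theorem phi_word (u : List (Fin 3)) : phi (cs.wordProd u) (1, 1, 1) = act u := by
  induction u with
  | nil => simp [act, Function.End.one_def]
  | cons i u ih =>
    rw [cs.wordProd_cons, map_mul]
    have : phi (cs.simple i) = rfE i := cs.lift_apply_simple liftable i
    rw [this]
    show rf i (phi (cs.wordProd u) (1, 1, 1)) = _
    rw [ih]; rfl

theorem flat (l : List MA.Group) (r : MA.Group → List (Fin 3))
    (hr : ∀ t, cs.wordProd (r t) = t) : cs.wordProd (l.map r).flatten = l.prod := by
  induction l with
  | nil => simp
  | cons a l ih => simp [cs.wordProd_append, hr, ih]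

theorem braid : cs.simple 1 * cs.simple 0 * cs.simple 1 = cs.simple 0 * cs.simple 1 * cs.simple 0 := by
  have h := cs.simple_mul_simple_pow 0 1
  have h3 : MA 0 1 = 3 := rfl
  rw [h3] at h
  have h0 := cs.simple_mul_simple_self 0
  have h1 := cs.simple_mul_simple_self 1
  generalize cs.simple 0 = a at *
  generalize cs.simple 1 = b at *
  calc b * a * b = (a * b) ^ 3 * (b * a * b) := by rw [h, one_mul]
    _ = a * b * a * (b * (a * (b * b) * a) * b) := by simp only [pow_succ, pow_zero, one_mul, mul_assoc]
    _ = a * b * a := by rw [h1, mul_one, h0, mul_one, h1, mul_one]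

theorem depth_le : depth cs (cs.wordProd w0) ≤ 6 := by
  have hb := braid
  have h0 := cs.simple_mul_simple_self 0
  have h1 := cs.simple_mul_simple_self 1
  have key : IsFact cs (cs.wordProd w0)
      [cs.wordProd [0, 1, 2, 1, 0], cs.wordProd [1], cs.wordProd [0, 2, 0]] := by
    constructor
    · intro t ht
      simp only [List.mem_cons, List.not_mem_nil, or_false] at ht
      rcases ht with rfl | rfl | rfl
      · refine ⟨cs.simple 0 * cs.simple 1, 2, ?_⟩
        rw [mul_inv_rev, cs.inv_simple, cs.inv_simple]
        simp [CoxeterSystem.wordProd, mul_assoc]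
      · refine ⟨1, 1, ?_⟩
        simp [CoxeterSystem.wordProd]
      · refine ⟨cs.simple 0, 2, ?_⟩
        rw [cs.inv_simple]
        simp [CoxeterSystem.wordProd, mul_assoc]
    · simp only [CoxeterSystem.wordProd, w0, List.map_cons, List.map_nil, List.prod_cons,
        List.prod_nil, mul_one]
      generalize cs.simple 0 = a at *
      generalize cs.simple 1 = b at *
      generalize cs.simple 2 = c at *
      calc a * (b * (c * (b * a))) * (b * (a * (c * a)))
          = a * b * c * (b * a * b) * a * c * a := by simp only [mul_assoc]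
        _ = a * b * c * a * b * (a * a) * c * a := by rw [hb]; simp only [mul_assoc]
        _ = _ := by rw [h0]; simp only [mul_assoc, mul_one]
  refine le_trans (Nat.sInf_le ⟨_, key, rfl⟩) ?_
  have a1 := cs.length_wordProd_le [0, 1, 2, 1, 0]
  have a2 := cs.length_wordProd_le [1]
  have a3 := cs.length_wordProd_le [0, 2, 0]
  simp only [List.length_cons, List.length_nil] at a1 a2 a3
  simp only [cost, List.map_cons, List.map_nil, List.sum_cons, List.sum_nil]
  omega

theorem sum_eq (f g : MA.Group → ℕ) (l : List MA.Group) (h : ∀ t ∈ l, f t = g t) :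
    (l.map f).sum = (l.map g).sum := by
  rw [List.map_congr_left h]

/-- It is false that in every Coxeter system (even of finite rank) every element has a reduced
factorization into reflections that realizes its depth. -/
theorem result :
    ¬ ∀ (B W : Type) [Finite B] [Group W] (M : CoxeterMatrix B) (cs : CoxeterSystem M W) (w : W),
      ∃ l : List W, IsFact cs w l ∧ cs.length w = (l.map cs.length).sum ∧
        cost cs l = depth cs w := by
  intro H
  obtain ⟨l, ⟨hrefl, hprod⟩, hred, hcost⟩ := H (Fin 3) MA.Group MA cs (cs.wordProd w0)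
  choose r hr1 hr2 using fun t => cs.exists_isReduced t
  have hw : cs.wordProd (l.map r).flatten = cs.wordProd w0 := by
    rw [flat l r (fun t => (hr2 t).symm), hprod]
  have hlen : ∀ t, cs.length t = (r t).length := fun t => by
    have := (hr1 t).eq
    rwa [← hr2 t] at this
  have hL : (l.map r).flatten.length = (l.map cs.length).sum := by
    rw [List.length_flatten, List.map_map]
    exact sum_eq _ _ l (fun t _ => (hlen t).symm)
  have h7 : cs.length (cs.wordProd w0) ≤ 7 := cs.length_wordProd_le w0
  have hu : (l.map r).flatten = w0 := by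
    refine chk1 _ ?_ _ (mem_words _) ?_
    · rw [List.mem_range]; omega
    · rw [← phi_word, ← phi_word, hw]
  have hsum : (l.map cs.length).sum = 7 := by rw [← hL, hu]; rfl
  have hone : ∀ t ∈ l, (1 + cs.length t) / 2 = cs.length t := by
    intro t ht
    have hinf : r t <:+: w0 := by
      rw [← hu]; exact List.infix_of_mem_flatten (List.mem_map_of_mem ht)
    have hle : (r t).length ≤ 7 := hinf.length_le
    have h2 : act (r t ++ r t) = (1, 1, 1) := by
      rw [← phi_word, cs.wordProd_append, ← hr2 t, (hrefl t ht).mul_self, map_one]; rfl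
    have := chk2 _ (by rw [List.mem_range]; omega) _ (mem_words (r t)) hinf h2
    rw [hlen t]; omega
  have hc : cost cs l = 7 := by
    rw [← hsum]; exact sum_eq _ _ l hone
  have := depth_le
  omega

end Pool.Agent.Results.MP_c1e3ac_co.DepthNotReduced
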